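import Pool.Agent.Q56.PC.ExtLaw

/-!
# One nonscalar operator on an exterior or symmetric power decides the sign conjecture

`C` is a `ℚ`-linear rigid symmetric monoidal category in which every endomorphism of the unit is
rational, with a symmetric monoidal additive functor `H` to finite dimensional super vector spaces
over a field `K`, for example the category of Chow or homological motives over a perfect field of
characteristic `p` with rational crystalline cohomology. Let `M` be an object with `H(M)` neither
even nor odd, for example the motive of a smooth proper variety `X` with nonzero odd cohomology.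

The image of the antisymmetrizer (`η = -1`) or the symmetrizer (`η = 1`) on `H(M ^ n)` is the
exterior or symmetric power `Λ^n H(M)` or `Sym^n H(M)`. It is the direct sum of the subspaces of the
tensors with exactly `k` odd factors (`Λ^(n-k) H⁺ ⊗ Sym^k H⁻` or `Sym^(n-k) H⁺ ⊗ Λ^k H⁻`); for a
function `f` let `T_f` be the operator which is `f k` on the `k`-th of them. If ONE operator `T_f` on
ONE exterior or symmetric power is algebraic with coefficients in `K` and not a scalar, then the
sign conjecture `C⁺` holds for `M`, and ALL of them with rational values are images of endomorphisms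
of `M ^ n`.
-/

set_option autoImplicit false

open CategoryTheory Limits MonoidalCategory

namespace Pool.Agent.Results.MP_fd35e1_ag.ExteriorPowers

open Pool.Agent.Y112.SR Pool.Agent.Y112.KD Pool.Agent.Y112.SC Q20.Cp Q56.PC

universe v u w

/-- **One nonscalar algebraic operator on one exterior or symmetric power decides the sign
conjecture.** -/
theorem result {C : Type u} [Category.{v} C] [Preadditive C] [Linear ℚ C] [MonoidalCategory C]
    [MonoidalPreadditive C] [MonoidalLinear ℚ C] [SymmetricCategory C] [RightRigidCategory C]
    {K : Type w} [Field K] (R : SuperRealisation C K) (hC : RationalUnit C) (M : C)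
    (he : pe R M ≠ 0) (ho : po R M ≠ 0) : List.TFAE [
    R.CPlus M,
    ∀ (n : ℕ) (η : ℚ) (f : ℕ → ℚ), η = 1 ∨ η = -1 → ∃ g : tp M n ⟶ tp M n,
      R.H.map g = R.H.map (asym η M n) ≫ oddOp R M n fun k => (f k : K),
    ∃ (n : ℕ) (η : ℚ) (f : ℕ → K), (η = 1 ∨ η = -1) ∧
      R.H.map (asym η M n) ≫ oddOp R M n f ∈ KAlg R (tp M n) ∧
      ∀ c : K, R.H.map (asym η M n) ≫ oddOp R M n f ≠ c • R.H.map (asym η M n)] :=
  ext_tfae hC M he ho

end Pool.Agent.Results.MP_fd35e1_ag.ExteriorPowers
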