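import Pool.Agent.Q57.ND.Law

/-!
# The sign conjecture as the equality of two numbers of cycles, for a variety and its reduction

Let `X` be a smooth proper variety over a field. Its numerical dimension `N(X)` is the largest
natural number which is the intersection number with the diagonal of a correspondence `z` of degree
zero from `X` to `X` (with rational coefficients) such that `z ∘ z` is numerically equivalent to the
diagonal. It only depends on the algebraic cycles on `X × X` and their intersection numbers.

Let `X` be a smooth proper variety over a field `k` (perfect of characteristic `p`) with the Weil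
cohomology `H` (crystalline cohomology), and let `X₀` be a smooth proper variety over a second field
`k₀` (a finite field) with the same sum of the Betti numbers, for which the sign conjecture is known:
this holds for the reductions of `X` over finite fields, by the theorem of Katz and Messing and the
invariance of the Betti numbers. The theorem compares the numbers of `X` and `X₀`: `N(X^n) ≤ N(X₀^n)`
for all `n ≥ 1`, and

* if the sign conjecture `C⁺(X)` holds, then `N(X^n) = N(X₀^n)` for all `n ≥ 1`,
* if it fails, then `N(X^n) ≤ (1 - 2 / (n + 1)^(N(X₀)^2)) N(X₀^n)` for all `n ≥ 1`.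

So `C⁺(X)` is a statement about the intersection numbers of the cycles on `X × X` and `X₀ × X₀`, in
which no cohomology occurs: `N(X) = N(X₀)`.
-/

open CategoryTheory AlgebraicGeometry

universe u v u' v'

namespace Pool.Agent.Results.MP_fd35e1_ag.NumberOfReduction

open Pool.Agent.H914 Pool.Agent.H914.VarClass Pool.Agent.H914.VarClass.Obj
  Pool.Agent.H914.WeilCohomology Pool.Agent.H447 Pool.Agent.Y133.Half Pool.Agent.Q55.Lr
  Pool.Agent.Q55.Rate Pool.Agent.Q57.ND

/-- **The sign conjecture is the equality of the numerical dimensions of a variety and of its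
reduction.** -/
theorem result {k : Type u} [Field k] {𝒱 : VarClass k} {ops : CycleOps 𝒱}
    (W : WeilCohomology.{u, v} ops) (X : 𝒱.Obj)
    {k₀ : Type u'} [Field k₀] {𝒱₀ : VarClass k₀} {ops₀ : CycleOps 𝒱₀}
    (W₀ : WeilCohomology.{u', v'} ops₀) (X₀ : 𝒱₀.Obj)
    (hb : totalBetti W X = totalBetti W₀ X₀) (hsign : SignStd W₀ X₀) :
    (∀ n, numericalDim ops (pw X n) ≤ numericalDim ops₀ (pw X₀ n)) ∧
    ((SignStd W X ∧ ∀ n, numericalDim ops (pw X n) = numericalDim ops₀ (pw X₀ n)) ∨
      (¬ SignStd W X ∧ ∀ n, 2 * numericalDim ops₀ (pw X₀ n) +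
          (n + 2) ^ (numericalDim ops₀ X₀ ^ 2) * numericalDim ops (pw X n) ≤
        (n + 2) ^ (numericalDim ops₀ X₀ ^ 2) * numericalDim ops₀ (pw X₀ n))) := by
  have h0 : ∀ n, numericalDim ops₀ (pw X₀ n) = totalBetti W X ^ (n + 1) := by
    intro n
    rw [dim_pw_of_sign hsign, hb]
  have h1 : numericalDim ops₀ X₀ = totalBetti W X := by
    rw [hb]
    exact (sign_iff W₀).1 hsign
  refine ⟨fun n => ?_, ?_⟩
  · rw [h0, ← betti_pw]
    have := dist_add_le W (X := pw X n)
    omega
  by_cases h : SignStd W X
  · exact Or.inl ⟨h, fun n => by rw [h0, dim_pw_of_sign h]⟩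
  · refine Or.inr ⟨h, fun n => ?_⟩
    rw [h0, h1]
    exact gap_pw h n

end Pool.Agent.Results.MP_fd35e1_ag.NumberOfReduction
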