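import Pool.Agent.Q250.OD.Std

/-!
# The sign conjecture and the determinant of the odd cohomology

Let `W` be a Weil cohomology theory on a class of smooth proper geometrically irreducible varieties
over a field, closed under products (the intended use: crystalline cohomology and all smooth
projective varieties over a perfect field of positive characteristic), `X` a variety of the class,
of dimension `d`, and `b` the dimension of the odd cohomology of `X`, the sum of the `H^i(X)` with
`i` odd. For a basis `e` of the odd cohomology put

  `δ = ∑ sign(σ) e_σ(1) × ⋯ × e_σ(b)` in `H(X^b)`.

Up to a nonzero scalar `δ` does not depend on the basis: it spans the determinant line of the odd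
cohomology. The number `b` is even, and the following are equivalent.

* The projector onto the even cohomology is given by an algebraic cycle on `X × X` with rational
  coefficients (`C⁺(X)`).
* The class `δ` is a combination of classes of cycles of codimension `b d / 2` on `X^b`, with
  coefficients in the coefficient field of the cohomology.
* Some nonzero multiple of `δ` is the class of one cycle of codimension `b d / 2` on `X^b` with
  rational coefficients.

The proof. The contraction of `δ × δ` with the diagonal of `X^(b-1)` is, by Cramer's rule, a nonzero
multiple of the odd projector, and the even projector descends from the coefficient field to the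
rational numbers. Conversely, the class of the odd projector is `± ∑ (x_i × y_i - y_i × x_i)` for a
symplectic basis, and the antisymmetrization of its power on `X^b` is a nonzero multiple of `δ`, a
Pfaffian, and is given by a rational cycle if the projector is.
-/

set_option autoImplicit false

open CategoryTheory AlgebraicGeometry

universe u v

namespace Pool.Agent.Results.MP_fd35e1_ag.OddDeterminant

open Pool.Agent.H914 Pool.Agent.H914.VarClass Pool.Agent.H914.VarClass.Obj
open Pool.Agent.H447 Pool.Agent.Q55.Det Pool.Agent.Q250.OD

variable {k : Type u} [Field k] {𝒱 : VarClass k} {ops : CycleOps 𝒱}

/-- **The sign conjecture and the determinant of the odd cohomology.** -/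
theorem result (W : WeilCohomology.{u, v} ops) (X : 𝒱.Obj) :
    [SignStd W X, OddDetAlgebraic W X, OddDetRational W X].TFAE ∧
      ∀ (n : ℕ) (e : Fin (n + 1) → W.H X), IsBasisOf (oddPart W X) e → Even (n + 1) :=
  ⟨tfae W X, fun _ _ he => even_card he⟩

end Pool.Agent.Results.MP_fd35e1_ag.OddDeterminant
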