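import Pool.Agent.Q200.AT.Sign

/-!
# The sign conjecture `C⁺` over a field of transcendence degree `r` over the closure of `F_p`

Let `k 0`, `k 1`, `k 2`, ... be algebraically closed fields, each the algebraic closure of the function
field of a curve over the one before (for instance, `k 0` the algebraic closure of the field with `p`
elements), with Weil cohomologies (for instance crystalline cohomology, with coefficients extended to a
common field), and let `P i` be a class of polarizations over `k i`, for instance the ample divisors.

The sign conjecture `C⁺` and the conjecture C hold for all varieties of dimension `n` over `k r` if over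
`k 0`, for the polarized varieties of dimension `2 n + r`, the conjecture A holds in the codimensions at
most `n - 1`, or homological and numerical equivalence agree for the cycles of dimension at most
`n - 1`. Here the conjecture A is used with coefficients in the coefficient field: the product with
`L ^ (d - 2 j)`, `d = 2 n + r`, maps the combinations of classes of cycles of codimension `j` onto those
of codimension `d - j`.

In characteristic zero such statements follow from the positivity of the Hodge-Riemann forms. The proof
here works in all characteristics. Let `Z` be the fibre of `Y`, `ι` its inclusion, `N` the ample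
divisor on `Y` and `f` the lowering operator of its `sl(2)`-triple. By the relative hard Lefschetz
theorem the operator `ι^* f ι_*` is injective on the restrictions to `Z` of classes on `Y` (library
`Q26.LF`, by helper26). The conjecture A in the codimensions at most `c` implies that `f` maps the
algebraic classes of codimension `q + 1` on `Y` to algebraic classes of codimension `q`, for all
`q ≤ c`. So the operator `ι^* f ι_*` is bijective on the invariant algebraic classes of `Z`, and these
lift to algebraic classes on `Y`. In this way the conjecture A descends from dimension `d + 1` over
`k i` to dimension `d` over `k (i + 1)`: one degree of transcendence costs one dimension. The lowering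
operator of `X` is the product of the square of the polarization of `X × X` with an algebraic class
by the conjecture A for `X × X`, which has dimension `2 n`, in the codimensions at most `n - 1`. The
Kunneth projectors are polynomials in algebraic operators (Kleiman).

For one family over a curve, with `n`-dimensional fibres and a compactification `Y` of its fibre
square, `sign_iff` and `kunneth_iff` in `Q200/AT/Sign.lean` show: if the conjecture A holds for `Y` in
the codimensions at most `n`, then `C⁺` (and C) hold for the geometric generic fibre if and only if
they hold for one fibre; over the closure of `F_p` they hold for the fibre by the theorem of Katz and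
Messing.
-/

open CategoryTheory AlgebraicGeometry

universe u v

namespace Pool.Agent.Results.MP_fd35e1_ag.TranscendenceDegree

open Pool.Agent.H914 Pool.Agent.H447 Pool.Agent.Q26.LF Pool.Agent.Q200.AT

/-- The even Kunneth projector and all Kunneth projectors are algebraic for all polarized varieties
of dimension `n`. -/
def CInDim {k : Type u} [Field k] {𝒱 : VarClass k} {ops : CycleOps 𝒱}
    (W : WeilCohomology.{u, v} ops) (P : ∀ X : 𝒱.Obj, X.Cycles → Prop) (n : ℕ) : Prop :=
  ∀ X D, P X D → X.dim = n → SignStd W X ∧ KunnethStd W X

/-- **The sign conjecture over fields of transcendence degree `r`.** -/
theorem result {k : ℕ → Type u} [∀ i, Field (k i)] {𝒱 : ∀ i, VarClass (k i)}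
    {ops : ∀ i, CycleOps (𝒱 i)} (W : ∀ i, WeilCohomology.{u, v} (ops i))
    (P : ∀ i, ∀ X : (𝒱 i).Obj, X.Cycles → Prop) (hP : ∀ i, IsPolarization (W i) (P i))
    (hM : ∀ i, HasModels (W (i + 1)) (W i) (P (i + 1)) (P i)) (r n : ℕ)
    (h : AInDim (W 0) (P 0) (2 * n + r) (n - 1) ∨ DInDim (W 0) (P 0) (2 * n + r) (n - 1)) :
    CInDim (W r) (P r) n := by
  intro X D hX hn
  have hB : BInDim (W r) (P r) n := by
    rcases h with h | h
    · exact b_of_a (hP r) (transfer_tower hP hM r (n - 1) (2 * n) h)
    · exact b_of_d_tower hP hM r n h
  have hC : KunnethStd (W r) X :=
    kunneth_of_b ((hP r).div _ _ hX) ((hP r).hard _ _ hX) (hB X D hX hn)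
  exact ⟨sign_of_k hC, hC⟩

end Pool.Agent.Results.MP_fd35e1_ag.TranscendenceDegree
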